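import Pool.Agent.Results.MP_92c8f1_an.SeparableUnital

/-!
The earlier statement (no clauses on the module) follows from the new one.
-/

open Pool.Agent.Work.MP_92c8f1_an

universe u v

theorem Pool.Agent.Work.MP_92c8f1_an.Parked.infiniteHeight :
    (∀ (Ω : Type u) [TopologicalSpace Ω] [CompactSpace Ω] [T2Space Ω],
      (∀ r : ℕ, (derivedSet^[r] (Set.univ : Set Ω)).Nonempty) →
        IsAmenable.{u, v} C(Ω, ℂ) ∧ ∀ m : ℕ, 3 ≤ m + 1 →
          ∃ (X : Type u) (_ : NormedAddCommGroup X) (_ : NormedSpace ℂ X) (_ : CompleteSpace X)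
            (M : Bimodule C(Ω, ℂ) X), M.IsSymmetric ∧ ¬ M.SuccCohomologyVanishes m) ∧
    ∀ r : ℕ, (derivedSet^[r] (Set.univ : Set (Set.Icc (0 : ℝ) 1))).Nonempty := by
  have h := Pool.Agent.Results.MP_92c8f1_an.SeparableUnital.result.{u, v}
  refine ⟨fun Ω _ _ _ hΩ => ⟨(h.1 Ω hΩ).1, fun m hm => ?_⟩, h.2⟩
  obtain ⟨X, i1, i2, i3, M, h1, -, -, -, h2⟩ := (h.1 Ω hΩ).2 m hm
  exact ⟨X, i1, i2, i3, M, h1, h2⟩
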